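import Pool.Agent.N977.P.Stm

/-!
Project NSP (helper977), part DES: the weighted norms.
-/

set_option autoImplicit false

open MeasureTheory Set Filter Topology
open scoped ContDiff ComplexConjugate ENNReal

namespace Pool.Agent.N738.NSP

open H459R3.NS Pool.Agent.N977.Q Pool.Agent.N977.S Pool.Agent.N977.P
open Pool.Agent.N977.K (SolK cmp)

noncomputable section

variable {T c E : ℝ} {J : ℕ → ℕ} {G : Fin 2 → ℕ → K3 → ℝ} {d D α μ : ℕ → ℝ}
  {x f : Fin 2 → ℕ → ℝ → ℝ} {a b : K3 → ℝ → ℝ}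

/-! ### The frequencies of the packets -/

theorem len_dv (e : Fin 2) : 4 ≤ len (dv e) ^ 2 ∧ len (dv e) ^ 2 ≤ 5 := by
  obtain ⟨h0, h2⟩ := len_ev_sq
  fin_cases e
  · show 4 ≤ len (ev 0) ^ 2 ∧ len (ev 0) ^ 2 ≤ 5
    rw [h0]
    norm_num
  · show 4 ≤ len (ev 2) ^ 2 ∧ len (ev 2) ^ 2 ≤ 5
    rw [h2]
    norm_num

/-- the frequencies of a packet are near the central frequency -/
theorem near' (hP : Pk J G) {e : Fin 2} {n : ℕ} {k : K3} (hk : G e n k ≠ 0) :
    |len k ^ 2 - (Mn 8 n : ℝ) ^ 2 * len (dv e) ^ 2| ≤ 7 / 1000 * (Mn 8 n : ℝ) ^ 2 := by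
  have h1 := hP.near e n k hk
  have h2 := hP.J2 n
  have hM : (0 : ℝ) ≤ Mn 8 n := Nat.cast_nonneg _
  have e1 : len (qq e n) ^ 2 = (Mn 8 n : ℝ) ^ 2 * len (dv e) ^ 2 := by
    unfold qq
    rw [len_smul, mul_pow]
  rw [e1] at h1
  refine h1.trans ?_
  have h3 := mul_le_mul_of_nonneg_left h2 hM
  nlinarith

theorem len_bounds (hP : Pk J G) {e : Fin 2} {n : ℕ} {k : K3} (hk : G e n k ≠ 0) :
    195 / 100 * (Mn 8 n : ℝ) ≤ len k ∧ len k ≤ 23 / 10 * (Mn 8 n : ℝ) := by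
  have h1 := abs_le.1 (near' hP hk)
  obtain ⟨h2, h3⟩ := len_dv e
  have hM : (0 : ℝ) ≤ Mn 8 n := Nat.cast_nonneg _
  have hM2 : (0 : ℝ) ≤ (Mn 8 n : ℝ) ^ 2 := sq_nonneg _
  have h4 := mul_le_mul_of_nonneg_left h2 hM2
  have h5 := mul_le_mul_of_nonneg_left h3 hM2
  constructor
  · refine (pow_le_pow_iff_left₀ (by positivity) (len_nonneg k) two_ne_zero).1 ?_
    nlinarith
  · refine (pow_le_pow_iff_left₀ (len_nonneg k) (by positivity) two_ne_zero).1 ?_
    nlinarith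

theorem len_comp (hP : Pk J G) {e : Fin 2} {n : ℕ} {k l : K3} (hk : G e n k ≠ 0)
    (hl : G e n l ≠ 0) : len k ≤ 5 / 4 * len l := by
  have h1 := (len_bounds hP hk).2
  have h2 := (len_bounds hP hl).1
  have hM : (0 : ℝ) ≤ Mn 8 n := Nat.cast_nonneg _
  nlinarith

theorem gw_comp (hP : Pk J G) {M : ℝ} (hM : 0 < M) {e : Fin 2} {n : ℕ} {k l : K3}
    (hk : G e n k ≠ 0) (hl : G e n l ≠ 0) : gw M k ≤ 2 * gw M l := by
  unfold gw
  have h1 : max 1 (len k / M) ≤ 5 / 4 * max 1 (len l / M) := by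
    apply max_le
    · have := le_max_left 1 (len l / M)
      linarith
    · have h2 := len_comp hP hk hl
      have h3 : len k / M ≤ 5 / 4 * (len l / M) := by
        rw [← mul_div_assoc]
        exact div_le_div_of_nonneg_right h2 hM.le
      have h4 := le_max_right 1 (len l / M)
      linarith
  have h5 : (0 : ℝ) ≤ max 1 (len k / M) := zero_le_one.trans (le_max_left _ _)
  have h6 : (0 : ℝ) ≤ max 1 (len l / M) := zero_le_one.trans (le_max_left _ _)
  calc max 1 (len k / M) ^ 3 ≤ (5 / 4 * max 1 (len l / M)) ^ 3 := pow_le_pow_left₀ h5 h1 3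
    _ = 125 / 64 * max 1 (len l / M) ^ 3 := by ring
    _ ≤ 2 * max 1 (len l / M) ^ 3 :=
        mul_le_mul_of_nonneg_right (by norm_num) (pow_nonneg h6 3)

/-- the upper bound of the weights -/
theorem gw_up (hP : Pk J G) (n : ℕ) {e : Fin 2} {m : ℕ} {k : K3} (hk : G e m k ≠ 0) :
    gw (Mn 8 n) k ≤ 15 * 8 ^ (m - n) := by
  have hM : (0 : ℝ) < Mn 8 n := by exact_mod_cast Mn_pos (by norm_num) n
  have h1 := (len_bounds hP hk).2
  have h2 : (Mn 8 m : ℝ) ≤ Mn 8 n * 2 ^ (m - n) := by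
    unfold Mn; push_cast
    rw [mul_assoc, ← pow_add]
    apply mul_le_mul_of_nonneg_left _ (by norm_num)
    exact pow_le_pow_right₀ (by norm_num) (by omega)
  have h3 : len k / Mn 8 n ≤ 23 / 10 * 2 ^ (m - n) := by
    rw [div_le_iff₀ hM]
    nlinarith
  have h4 : (1 : ℝ) ≤ 23 / 10 * 2 ^ (m - n) := by
    have : (1 : ℝ) ≤ 2 ^ (m - n) := one_le_pow₀ (by norm_num)
    linarith
  unfold gw
  calc _ ≤ (23 / 10 * 2 ^ (m - n) : ℝ) ^ 3 :=
        pow_le_pow_left₀ (zero_le_one.trans (le_max_left _ _)) (max_le h4 h3) 3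
    _ = (23 / 10) ^ 3 * 8 ^ (m - n) := by
        rw [mul_pow, ← pow_mul, mul_comm (m - n) 3, pow_mul]; norm_num
    _ ≤ 15 * 8 ^ (m - n) := mul_le_mul_of_nonneg_right (by norm_num) (by positivity)

/-- the lower bound of the weights -/
theorem gw_low (hP : Pk J G) {n m : ℕ} (h : n ≤ m) {e : Fin 2} {k : K3} (hk : G e m k ≠ 0) :
    74 / 10 * 8 ^ (m - n) ≤ gw (Mn 8 n) k := by
  obtain ⟨j, rfl⟩ := Nat.exists_eq_add_of_le h
  have hM : (0 : ℝ) < Mn 8 n := by exact_mod_cast Mn_pos (by norm_num) n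
  have h1 := (len_bounds hP hk).1
  have h2 : (Mn 8 (n + j) : ℝ) = Mn 8 n * 2 ^ j := by
    unfold Mn; push_cast; rw [pow_add]; ring
  have h3 : 195 / 100 * 2 ^ j ≤ len k / Mn 8 n := by
    rw [le_div_iff₀ hM]
    rw [h2] at h1
    linarith
  unfold gw
  rw [Nat.add_sub_cancel_left]
  calc (74 / 10 : ℝ) * 8 ^ j ≤ (195 / 100) ^ 3 * 8 ^ j :=
        mul_le_mul_of_nonneg_right (by norm_num) (by positivity)
    _ = (195 / 100 * 2 ^ j) ^ 3 := by
        rw [mul_pow, ← pow_mul, mul_comm j 3, pow_mul]; norm_num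
    _ ≤ _ := pow_le_pow_left₀ (by positivity) (h3.trans (le_max_right _ _)) 3

/-! ### The packets as finite sets -/

/-- the frequencies of a packet -/
def su (hP : Pk J G) (e : Fin 2) (m : ℕ) : Finset K3 := (hP.fin e m).toFinset

theorem mem_su (hP : Pk J G) {e : Fin 2} {m : ℕ} {k : K3} : k ∈ su hP e m ↔ G e m k ≠ 0 := by
  unfold su
  rw [Set.Finite.mem_toFinset]
  rfl

theorem tsum_su (hP : Pk J G) (e : Fin 2) (m : ℕ) (F : K3 → ℝ) :
    ∑' l, |G e m l| * F l = ∑ l ∈ su hP e m, |G e m l| * F l := by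
  refine tsum_eq_sum fun l hl => ?_
  rw [mem_su, not_not] at hl
  rw [hl, abs_zero, zero_mul]

theorem sum_abs (hP : Pk J G) (e : Fin 2) (m : ℕ) :
    ∑ l ∈ su hP e m, |G e m l| ≤ 3 * J m := by
  have h1 := hP.l1 e m
  have h2 := tsum_su hP e m fun _ => 1
  simp only [mul_one] at h2
  rwa [h2] at h1

theorem J_pos (hP : Pk J G) (m : ℕ) : (1 : ℝ) ≤ J m := by exact_mod_cast hP.J1 m

/-! ### The estimates on a packet -/

/-- the amplitudes are bounded by the Fourier coefficients -/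
theorem x_le (hP : Pk J G) (h : Syp T c E J G d D α μ x f a b) (e : Fin 2) (m : ℕ) {t : ℝ}
    (ht : t ∈ Icc 0 T) : |x e m t| ≤ ∑ l ∈ su hP e m, |G e m l| * a l t := by
  rw [← tsum_su hP e m fun l => a l t]
  exact h.xa e m t ht

theorem loc_b (hP : Pk J G) (h : Syp T c E J G d D α μ x f a b) {M : ℝ} (hM : 0 < M) (e : Fin 2)
    (m : ℕ) {t : ℝ} (ht : t ∈ Icc 0 T) : ∑ k ∈ su hP e m, gw M k * b k t
      ≤ 13 * ∑ k ∈ su hP e m, gw M k * a k t := by
  have hJ := J_pos hP m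
  obtain ⟨S, hS⟩ : ∃ S, S = ∑ k ∈ su hP e m, gw M k * a k t := ⟨_, rfl⟩
  have hS0 : 0 ≤ S := by
    rw [hS]
    exact Finset.sum_nonneg fun k _ => mul_nonneg (gw_pos M k).le (h.a0 k t)
  have h1 : ∀ k ∈ su hP e m, gw M k * b k t ≤ gw M k * a k t + |G e m k| * (4 / J m * S) := by
    intro k hk
    have hk' := (mem_su hP).1 hk
    have h2 := (h.ax e m k hk' t ht).2
    have h3 := x_le hP h e m ht
    have h4 : gw M k * |x e m t| ≤ 4 / J m * S := by
      calc gw M k * |x e m t| ≤ gw M k * ∑ l ∈ su hP e m, |G e m l| * a l t :=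
            mul_le_mul_of_nonneg_left h3 (gw_pos M k).le
        _ = ∑ l ∈ su hP e m, gw M k * (|G e m l| * a l t) := Finset.mul_sum _ _ _
        _ ≤ ∑ l ∈ su hP e m, 4 / J m * (gw M l * a l t) := by
            refine Finset.sum_le_sum fun l hl => ?_
            have g1 := gw_comp hP hM hk' ((mem_su hP).1 hl)
            have g2 := hP.sup e m l
            have g3 := h.a0 l t
            have g4 := (gw_pos M l).le
            have g5 := (gw_pos M k).le
            calc gw M k * (|G e m l| * a l t) ≤ (2 * gw M l) * ((2 / J m) * a l t) := by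
                  apply mul_le_mul g1 (mul_le_mul_of_nonneg_right g2 g3)
                  · exact mul_nonneg (abs_nonneg _) g3
                  · linarith
              _ = 4 / J m * (gw M l * a l t) := by ring
        _ = 4 / J m * S := by rw [hS, Finset.mul_sum]
    have h5 : gw M k * b k t ≤ gw M k * (a k t + |G e m k| * |x e m t|) :=
      mul_le_mul_of_nonneg_left h2 (gw_pos M k).le
    have h6 := mul_le_mul_of_nonneg_left h4 (abs_nonneg (G e m k))
    linarith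
  have h2 := Finset.sum_le_sum h1
  rw [Finset.sum_add_distrib, ← Finset.sum_mul, ← hS] at h2
  have h3 : (∑ k ∈ su hP e m, |G e m k|) * (4 / J m * S) ≤ 3 * J m * (4 / J m * S) :=
    mul_le_mul_of_nonneg_right (sum_abs hP e m) (by positivity)
  have h4 : 3 * J m * (4 / J m * S) = 12 * S := by
    field_simp
    ring
  rw [← hS]
  linarith

theorem loc_a (hP : Pk J G) (h : Syp T c E J G d D α μ x f a b) (n : ℕ) (e : Fin 2)
    (m : ℕ) {t : ℝ} (ht : t ∈ Icc 0 T) {X : ℕ → ℝ} (hX : |x e m t| ≤ X m) :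
    ∑ k ∈ su hP e m, gw (Mn 8 n) k * a k t
      ≤ (∑ k ∈ su hP e m, gw (Mn 8 n) k * b k t) + 50 * (8 ^ (m - n) * (J m * X m)) := by
  have hX0 : 0 ≤ X m := (abs_nonneg _).trans hX
  have h1 : ∀ k ∈ su hP e m, gw (Mn 8 n) k * a k t ≤ gw (Mn 8 n) k * b k t
      + |G e m k| * (15 * 8 ^ (m - n) * X m) := by
    intro k hk
    have hk' := (mem_su hP).1 hk
    have h2 := (h.ax e m k hk' t ht).1
    have h3 := gw_up hP n hk'
    have h4 := (gw_pos (Mn 8 n) k).le
    have h5 : gw (Mn 8 n) k * a k t ≤ gw (Mn 8 n) k * (b k t + |G e m k| * |x e m t|) :=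
      mul_le_mul_of_nonneg_left h2 h4
    have h6 : gw (Mn 8 n) k * |x e m t| ≤ 15 * 8 ^ (m - n) * X m :=
      mul_le_mul h3 hX (abs_nonneg _) (by positivity)
    have h7 := mul_le_mul_of_nonneg_left h6 (abs_nonneg (G e m k))
    linarith
  have h2 := Finset.sum_le_sum h1
  rw [Finset.sum_add_distrib, ← Finset.sum_mul] at h2
  have h3 := mul_le_mul_of_nonneg_right (sum_abs hP e m)
    (show (0 : ℝ) ≤ 15 * 8 ^ (m - n) * X m by positivity)
  have h4 : (0 : ℝ) ≤ 8 ^ (m - n) * (J m * X m) := by positivity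
  nlinarith

/-! ### Decomposition of sums -/

theorem dec (hP : Pk J G) (F : K3 → ℝ≥0∞) : ∑' k, F k =
    (∑' k, {k | ∀ e n, G e n k = 0}.indicator F k) +
      ∑' p : Fin 2 × ℕ, ∑ k ∈ su hP p.1 p.2, F k := by
  classical
  have h1 : ∀ k, F k = {k | ∀ e n, G e n k = 0}.indicator F k +
      ∑' p : Fin 2 × ℕ, (su hP p.1 p.2 : Set K3).indicator F k := by
    intro k
    by_cases hk : ∀ e n, G e n k = 0
    · rw [indicator_of_mem (show k ∈ {k | ∀ e n, G e n k = 0} from hk)]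
      have h2 : ∀ p : Fin 2 × ℕ, (su hP p.1 p.2 : Set K3).indicator F k = 0 := by
        intro p
        refine indicator_of_notMem ?_ _
        rw [Finset.mem_coe, mem_su, not_not]
        exact hk p.1 p.2
      simp only [h2, tsum_zero, add_zero]
    · rw [indicator_of_notMem (show k ∉ {k | ∀ e n, G e n k = 0} from hk), zero_add]
      push Not at hk
      obtain ⟨e, n, hen⟩ := hk
      rw [tsum_eq_single (e, n)]
      · rw [indicator_of_mem]
        rw [Finset.mem_coe, mem_su]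
        exact hen
      · intro p hp
        refine indicator_of_notMem ?_ _
        rw [Finset.mem_coe, mem_su, not_not]
        by_contra h3
        obtain ⟨h4, h5⟩ := hP.disj p.1 p.2 e n k h3 hen
        exact hp (Prod.ext h4 h5)
  have h2 : ∑' k, ∑' p : Fin 2 × ℕ, (su hP p.1 p.2 : Set K3).indicator F k =
      ∑' p : Fin 2 × ℕ, ∑ k ∈ su hP p.1 p.2, F k := by
    rw [ENNReal.tsum_comm]
    refine tsum_congr fun p => ?_
    rw [← tsum_subtype]
    exact Finset.tsum_subtype (su hP p.1 p.2) F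
  calc ∑' k, F k = ∑' k, ({k | ∀ e n, G e n k = 0}.indicator F k +
        ∑' p : Fin 2 × ℕ, (su hP p.1 p.2 : Set K3).indicator F k) := tsum_congr h1
    _ = _ := by rw [ENNReal.tsum_add, h2]

/-! ### The domination -/

theorem dom (h : Syp T c E J G d D α μ x f a b) : ∃ B : K3 → ℝ, Summable B ∧
    ∀ M, 1 ≤ M → ∀ t ∈ Icc 0 T, ∀ k, gw M k * a k t ≤ B k := by
  obtain ⟨C, hC0, hC⟩ := h.dec
  refine ⟨fun k => (if k = 0 then E else 0) + 8 * C * (if k = 0 then (0 : ℝ) else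
    1 / (H459R3.NS.N k : ℝ) ^ 4), ?_, fun M hM t ht k => ?_⟩
  · refine Summable.add ?_ (summable_N4.mul_left _)
    exact summable_of_ne_finset_zero (s := {0}) fun k hk => if_neg (by simpa using hk)
  · by_cases hk : k = 0
    · subst hk
      simp only [if_pos]
      rw [gw_zero, one_mul, mul_zero, add_zero]
      exact h.aE 0 t ht
    · simp only [if_neg hk]
      have h1 := gw_le_N hM hk
      have h2 := hC t ht k
      have h3 := one_le_N hk
      have h4 : (0 : ℝ) < (H459R3.NS.N k : ℝ) ^ 4 := by positivity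
      rw [zero_add, mul_one_div, le_div_iff₀ h4]
      have h5 := h.a0 k t
      calc gw M k * a k t * (H459R3.NS.N k : ℝ) ^ 4
          ≤ 8 * (H459R3.NS.N k : ℝ) ^ 3 * a k t * (H459R3.NS.N k : ℝ) ^ 4 :=
            mul_le_mul_of_nonneg_right (mul_le_mul_of_nonneg_right h1 h5) h4.le
        _ = 8 * ((H459R3.NS.N k : ℝ) ^ 7 * a k t) := by ring
        _ ≤ 8 * ((H459R3.NS.N k : ℝ) ^ 8 * a k t) := by
            apply mul_le_mul_of_nonneg_left _ (by norm_num)
            exact mul_le_mul_of_nonneg_right (pow_le_pow_right₀ h3 (by norm_num)) h5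
        _ ≤ 8 * C := by linarith

theorem sa (h : Syp T c E J G d D α μ x f a b) {M : ℝ} (hM : 1 ≤ M) {t : ℝ} (ht : t ∈ Icc 0 T) :
    Summable fun k => gw M k * a k t := by
  obtain ⟨B, hB, hB'⟩ := dom h
  exact Summable.of_nonneg_of_le (fun k => mul_nonneg (gw_pos M k).le (h.a0 k t))
    (fun k => hB' M hM t ht k) hB

theorem GG_cont (h : Syp T c E J G d D α μ x f a b) {M : ℝ} (hM : 1 ≤ M) :
    ContinuousOn (GG a M) (Icc 0 T) := by
  obtain ⟨B, hB, hB'⟩ := dom h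
  refine continuousOn_tsum (fun k => continuousOn_const.mul (h.ac k)) hB fun k t ht => ?_
  rw [Real.norm_eq_abs, abs_of_nonneg (mul_nonneg (gw_pos M k).le (h.a0 k t))]
  exact hB' M hM t ht k

theorem sum_ofReal {s : Finset K3} {F : K3 → ℝ} (hF : ∀ k, 0 ≤ F k) :
    ∑ k ∈ s, ENNReal.ofReal (F k) = ENNReal.ofReal (∑ k ∈ s, F k) :=
  (ENNReal.ofReal_sum_of_nonneg fun k _ => hF k).symm

/-- comparison of the sums -/
theorem tb (hP : Pk J G) (h : Syp T c E J G d D α μ x f a b) {M : ℝ} (hM : 0 < M) {t : ℝ}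
    (ht : t ∈ Icc 0 T) : ∑' k, ENNReal.ofReal (gw M k * b k t)
      ≤ 13 * ∑' k, ENNReal.ofReal (gw M k * a k t) := by
  have ha0 : ∀ k, 0 ≤ gw M k * a k t := fun k => mul_nonneg (gw_pos M k).le (h.a0 k t)
  have hb0 : ∀ k, 0 ≤ gw M k * b k t := fun k => mul_nonneg (gw_pos M k).le (h.b0 k t)
  rw [dec hP, dec hP (fun k => ENNReal.ofReal (gw M k * a k t)), mul_add,
    ← ENNReal.tsum_mul_left, ← ENNReal.tsum_mul_left]
  refine add_le_add (ENNReal.tsum_le_tsum fun k => ?_) (ENNReal.tsum_le_tsum fun p => ?_)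
  · by_cases hk : k ∈ {k | ∀ e n, G e n k = 0}
    · rw [indicator_of_mem hk, indicator_of_mem hk, h.ab k hk t ht]
      exact le_mul_of_one_le_left zero_le (by norm_num)
    · rw [indicator_of_notMem hk]
      exact zero_le
  · rw [sum_ofReal hb0, sum_ofReal ha0]
    have h1 := loc_b hP h hM p.1 p.2 ht
    have e13 : (13 : ℝ≥0∞) = ENNReal.ofReal 13 := by norm_num
    rw [e13, ← ENNReal.ofReal_mul (by norm_num)]
    exact ENNReal.ofReal_le_ofReal h1

theorem sb (hP : Pk J G) (h : Syp T c E J G d D α μ x f a b) {M : ℝ} (hM : 1 ≤ M) {t : ℝ}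
    (ht : t ∈ Icc 0 T) : (Summable fun k => gw M k * b k t) ∧ GG b M t ≤ 13 * GG a M t := by
  have hM0 : 0 < M := by linarith
  have ha0 : ∀ k, 0 ≤ gw M k * a k t := fun k => mul_nonneg (gw_pos M k).le (h.a0 k t)
  have hb0 : ∀ k, 0 ≤ gw M k * b k t := fun k => mul_nonneg (gw_pos M k).le (h.b0 k t)
  have hsa := sa h hM ht
  have h1 := tb hP h hM0 ht
  rw [← ENNReal.ofReal_tsum_of_nonneg ha0 hsa] at h1
  have e13 : (13 : ℝ≥0∞) = ENNReal.ofReal 13 := by norm_num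
  rw [e13, ← ENNReal.ofReal_mul (by norm_num)] at h1
  have hsb : Summable fun k => gw M k * b k t := by
    have h2 := ENNReal.summable_toReal (ne_top_of_le_ne_top ENNReal.ofReal_ne_top h1)
    refine h2.congr fun k => ?_
    rw [ENNReal.toReal_ofReal (hb0 k)]
  refine ⟨hsb, ?_⟩
  rw [← ENNReal.ofReal_tsum_of_nonneg hb0 hsb] at h1
  exact (ENNReal.ofReal_le_ofReal_iff (mul_nonneg (by norm_num) (tsum_nonneg ha0))).1 h1

/-- the contribution of the cascade -/
theorem GG_le (hP : Pk J G) (h : Syp T c E J G d D α μ x f a b) (n : ℕ) {t : ℝ}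
    (ht : t ∈ Icc 0 T) {X : ℕ → ℝ} (hX : ∀ e m, |x e m t| ≤ X m)
    (hs : Summable fun m => 8 ^ (m - n) * (J m * X m)) :
    GG a (Mn 8 n) t ≤ GG b (Mn 8 n) t + 100 * ∑' m, 8 ^ (m - n) * (J m * X m) := by
  have hM : (1 : ℝ) ≤ Mn 8 n := one_le_Mn (by norm_num) n
  have hX0 : ∀ m, 0 ≤ X m := fun m => (abs_nonneg _).trans (hX 0 m)
  have ha0 : ∀ k, 0 ≤ gw (Mn 8 n) k * a k t := fun k => mul_nonneg (gw_pos _ k).le (h.a0 k t)
  have hb0 : ∀ k, 0 ≤ gw (Mn 8 n) k * b k t := fun k => mul_nonneg (gw_pos _ k).le (h.b0 k t)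
  have hr0 : ∀ m : ℕ, (0 : ℝ) ≤ 8 ^ (m - n) * (J m * X m) := fun m => by
    have := hX0 m
    positivity
  have hsa := sa h hM ht
  have hsb := (sb hP h hM ht).1
  have key : ∑' k, ENNReal.ofReal (gw (Mn 8 n) k * a k t)
      ≤ ∑' k, ENNReal.ofReal (gw (Mn 8 n) k * b k t)
        + ∑' p : Fin 2 × ℕ, ENNReal.ofReal (50 * (8 ^ (p.2 - n) * (J p.2 * X p.2))) := by
    rw [dec hP, dec hP (fun k => ENNReal.ofReal (gw (Mn 8 n) k * b k t)), add_assoc,
      ← ENNReal.tsum_add]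
    refine add_le_add (ENNReal.tsum_le_tsum fun k => ?_) (ENNReal.tsum_le_tsum fun p => ?_)
    · by_cases hk : k ∈ {k | ∀ e n, G e n k = 0}
      · rw [indicator_of_mem hk, indicator_of_mem hk, h.ab k hk t ht]
      · rw [indicator_of_notMem hk]
        exact zero_le
    · rw [sum_ofReal hb0, sum_ofReal ha0, ← ENNReal.ofReal_add
        (Finset.sum_nonneg fun k _ => hb0 k) (mul_nonneg (by norm_num) (hr0 _))]
      exact ENNReal.ofReal_le_ofReal (loc_a hP h n p.1 p.2 ht (hX p.1 p.2))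
  have e1 : ∑' p : Fin 2 × ℕ, ENNReal.ofReal (50 * (8 ^ (p.2 - n) * (J p.2 * X p.2)))
      = ENNReal.ofReal (100 * ∑' m, 8 ^ (m - n) * (J m * X m)) := by
    rw [ENNReal.tsum_prod (f := fun (_ : Fin 2) (m : ℕ) =>
      ENNReal.ofReal (50 * (8 ^ (m - n) * (J m * X m)))), tsum_fintype, Fin.sum_univ_two,
      ← ENNReal.ofReal_tsum_of_nonneg (fun m => mul_nonneg (by norm_num) (hr0 m))
        (hs.mul_left 50), tsum_mul_left, ← ENNReal.ofReal_add
        (mul_nonneg (by norm_num) (tsum_nonneg hr0)) (mul_nonneg (by norm_num) (tsum_nonneg hr0))]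
    congr 1
    ring
  rw [e1, ← ENNReal.ofReal_tsum_of_nonneg ha0 hsa, ← ENNReal.ofReal_tsum_of_nonneg hb0 hsb,
    ← ENNReal.ofReal_add (tsum_nonneg hb0) (mul_nonneg (by norm_num) (tsum_nonneg hr0))] at key
  exact (ENNReal.ofReal_le_ofReal_iff (add_nonneg (tsum_nonneg hb0)
    (mul_nonneg (by norm_num) (tsum_nonneg hr0)))).1 key

/-- the noise -/
theorem rho_le (hP : Pk J G) (h : Syp T c E J G d D α μ x f a b) {n m : ℕ} (hnm : n ≤ m) {t : ℝ}
    (ht : t ∈ Icc 0 T) {Γ : ℝ} (hG : GG a (Mn 8 n) t ≤ Γ) (e : Fin 2) :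
    rho c J G (fun l => a l t) (fun l => b l t) e m
      ≤ Mn 8 m * (1 / 8) ^ (m - n) * (40 * c * Γ + 40 * Γ ^ 2 / J m) := by
  have hM : (1 : ℝ) ≤ Mn 8 n := one_le_Mn (by norm_num) n
  have hM0 : (0 : ℝ) < Mn 8 n := by linarith
  have hMm : (0 : ℝ) ≤ Mn 8 m := Nat.cast_nonneg _
  have hJ := J_pos hP m
  have hJ0 : (0 : ℝ) < J m := by linarith
  have hc := h.c0
  have ha0 : ∀ k, 0 ≤ a k t := fun k => h.a0 k t
  have hga0 : ∀ k, 0 ≤ gw (Mn 8 n) k * a k t := fun k => mul_nonneg (gw_pos _ k).le (ha0 k)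
  have hG0 : 0 ≤ GG a (Mn 8 n) t := tsum_nonneg hga0
  have hΓ0 : 0 ≤ Γ := hG0.trans hG
  have hsa := sa h hM ht
  have hcv0 : ∀ k, 0 ≤ cv (fun l => a l t) (fun l => a l t) k := cv_nonneg ha0 ha0
  obtain ⟨j, hj⟩ : ∃ j, j = m - n := ⟨_, rfl⟩
  have h8 : (0 : ℝ) < 8 ^ j := by positivity
  -- the sum of `b`
  have sb1 : 74 / 10 * 8 ^ j * ∑ l ∈ su hP e m, b l t ≤ 13 * Γ := by
    have q1 : 74 / 10 * 8 ^ j * ∑ l ∈ su hP e m, b l t
        ≤ ∑ l ∈ su hP e m, gw (Mn 8 n) l * b l t := by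
      rw [Finset.mul_sum]
      refine Finset.sum_le_sum fun l hl => ?_
      rw [hj]
      exact mul_le_mul_of_nonneg_right (gw_low hP hnm ((mem_su hP).1 hl)) (h.b0 l t)
    have q2 := loc_b hP h hM0 e m ht
    have q3 : ∑ l ∈ su hP e m, gw (Mn 8 n) l * a l t ≤ GG a (Mn 8 n) t :=
      hsa.sum_le_tsum _ fun k _ => hga0 k
    linarith
  -- the sum of the convolution
  have sc1 : 74 / 10 * 8 ^ j * ∑ l ∈ su hP e m, cv (fun l => a l t) (fun l => a l t) l
      ≤ 8 * Γ ^ 2 := by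
    obtain ⟨s1, s2⟩ := gw_cv (M := Mn 8 n) (a := fun l => a l t) (b := fun l => a l t) hM0
      ha0 ha0 hsa hsa
    have q1 : 74 / 10 * 8 ^ j * ∑ l ∈ su hP e m, cv (fun l => a l t) (fun l => a l t) l
        ≤ ∑ l ∈ su hP e m, gw (Mn 8 n) l * cv (fun l => a l t) (fun l => a l t) l := by
      rw [Finset.mul_sum]
      refine Finset.sum_le_sum fun l hl => ?_
      rw [hj]
      exact mul_le_mul_of_nonneg_right (gw_low hP hnm ((mem_su hP).1 hl)) (hcv0 l)
    have q2 : ∑ l ∈ su hP e m, gw (Mn 8 n) l * cv (fun l => a l t) (fun l => a l t) l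
        ≤ ∑' l, gw (Mn 8 n) l * cv (fun l => a l t) (fun l => a l t) l :=
      s1.sum_le_tsum _ fun k _ => mul_nonneg (gw_pos _ k).le (hcv0 k)
    have q3 : GG a (Mn 8 n) t * GG a (Mn 8 n) t ≤ Γ ^ 2 := by
      rw [sq]; exact mul_le_mul hG hG hG0 hΓ0
    have q4 : ∑' l, gw (Mn 8 n) l * cv (fun l => a l t) (fun l => a l t) l
        ≤ 8 * (GG a (Mn 8 n) t * GG a (Mn 8 n) t) := s2
    linarith
  -- the terms
  have hterm : ∀ l ∈ su hP e m, |G e m l| * (7 * (c * (Mn 8 m * ((J m : ℝ) - 1))) * b l t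
      + 7 * len l * cv (fun l => a l t) (fun l => a l t) l)
      ≤ 14 * (c * Mn 8 m) * b l t
        + 322 / 10 * (Mn 8 m / J m) * cv (fun l => a l t) (fun l => a l t) l := by
    intro l hl
    have g1 := hP.sup e m l
    have g2 := (len_bounds hP ((mem_su hP).1 hl)).2
    have g3 := h.b0 l t
    have g4 := hcv0 l
    have g5 : 0 ≤ 7 * (c * (Mn 8 m * ((J m : ℝ) - 1))) * b l t := by
      have : (0 : ℝ) ≤ (J m : ℝ) - 1 := by linarith
      positivity
    have g6 : 0 ≤ 7 * len l * cv (fun l => a l t) (fun l => a l t) l :=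
      mul_nonneg (mul_nonneg (by norm_num) (len_nonneg l)) g4
    have g7 : |G e m l| * (7 * (c * (Mn 8 m * ((J m : ℝ) - 1))) * b l t
        + 7 * len l * cv (fun l => a l t) (fun l => a l t) l)
        ≤ 2 / J m * (7 * (c * (Mn 8 m * ((J m : ℝ) - 1))) * b l t
        + 7 * len l * cv (fun l => a l t) (fun l => a l t) l) :=
      mul_le_mul_of_nonneg_right g1 (add_nonneg g5 g6)
    have g8 : 2 / J m * (7 * (c * (Mn 8 m * ((J m : ℝ) - 1))) * b l t) ≤ 14 * (c * Mn 8 m) * b l t := by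
      rw [div_mul_eq_mul_div, div_le_iff₀ hJ0]
      have : 0 ≤ c * Mn 8 m * b l t := by positivity
      nlinarith
    have g9 : 2 / J m * (7 * len l * cv (fun l => a l t) (fun l => a l t) l)
        ≤ 322 / 10 * (Mn 8 m / J m) * cv (fun l => a l t) (fun l => a l t) l := by
      have : 7 * len l * cv (fun l => a l t) (fun l => a l t) l
          ≤ 7 * (23 / 10 * (Mn 8 m : ℝ)) * cv (fun l => a l t) (fun l => a l t) l :=
        mul_le_mul_of_nonneg_right (by linarith) g4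
      calc _ ≤ 2 / J m * (7 * (23 / 10 * (Mn 8 m : ℝ)) * cv (fun l => a l t) (fun l => a l t) l) :=
            mul_le_mul_of_nonneg_left this (by positivity)
        _ = _ := by ring
    rw [mul_add] at g7
    linarith
  unfold rho
  rw [tsum_su hP e m fun l => 7 * (c * (Mn 8 m * ((J m : ℝ) - 1))) * b l t
    + 7 * len l * cv (fun l => a l t) (fun l => a l t) l]
  refine (Finset.sum_le_sum hterm).trans ?_
  rw [Finset.sum_add_distrib, ← Finset.mul_sum, ← Finset.mul_sum, ← hj, one_div_pow]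
  obtain ⟨Sb, hSb⟩ : ∃ Sb, Sb = ∑ l ∈ su hP e m, b l t := ⟨_, rfl⟩
  obtain ⟨Sc, hSc⟩ : ∃ Sc, Sc = ∑ l ∈ su hP e m, cv (fun l => a l t) (fun l => a l t) l := ⟨_, rfl⟩
  rw [← hSb] at sb1 ⊢
  rw [← hSc] at sc1 ⊢
  have f1 : Sb ≤ 13 / (74 / 10) * Γ * (1 / 8 ^ j) := by
    rw [mul_one_div, le_div_iff₀ h8]
    linarith
  have f2 : Sc ≤ 8 / (74 / 10) * Γ ^ 2 * (1 / 8 ^ j) := by
    rw [mul_one_div, le_div_iff₀ h8]
    linarith
  have f3 := mul_le_mul_of_nonneg_left f1 (show 0 ≤ 14 * (c * Mn 8 m) by positivity)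
  have f4 := mul_le_mul_of_nonneg_left f2 (show 0 ≤ 322 / 10 * ((Mn 8 m : ℝ) / J m) by positivity)
  have f5 : 0 ≤ c * Mn 8 m * Γ * (1 / 8 ^ j) := by positivity
  have f6 : 0 ≤ (Mn 8 m : ℝ) / J m * Γ ^ 2 * (1 / 8 ^ j) := by positivity
  have f7 : (Mn 8 m : ℝ) * (1 / 8 ^ j) * (40 * c * Γ + 40 * Γ ^ 2 / J m)
      = 40 * (c * Mn 8 m * Γ * (1 / 8 ^ j)) + 40 * ((Mn 8 m : ℝ) / J m * Γ ^ 2 * (1 / 8 ^ j)) := by
    ring
  rw [f7]
  nlinarith

/-- **DES.** -/
theorem des : Pool.Agent.N977.P.S_DES := by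
  intro T c E J G d D α μ x f a b hP h
  refine ⟨fun M hM t ht => ⟨sa h hM ht, (sb hP h hM ht).1, (sb hP h hM ht).2⟩,
    fun M hM => GG_cont h hM, fun n t ht X hX hs => GG_le hP h n ht hX hs,
    fun n m hnm t ht Γ hG e => rho_le hP h hnm ht hG e⟩

end

end Pool.Agent.N738.NSP
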